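import Pool.Agent.H38.Icd.Cmp

/-!
Independence of plane point-line incidence structures is hard for the existential theory of the
reals.
-/

namespace Pool.Agent.Results.MP_5661ce_lc.Hard

open Pool.Agent.H38.NP Pool.Agent.H38.ER Pool.Agent.H38.Icd

theorem result : ERHardOn InRange Indep := icd_erh.hardOn

end Pool.Agent.Results.MP_5661ce_lc.Hard
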